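import Mathlib

set_option autoImplicit false

namespace Pool.Agent.Results.MP_798444_co.Twins

/-- The two-way infinite path with every vertex doubled. -/
def G : SimpleGraph (ℤ × Bool) where
  Adj x y := y.1 = x.1 + 1 ∨ x.1 = y.1 + 1
  symm := ⟨fun _ _ h => h.symm⟩
  loopless := ⟨fun x h => by omega⟩

lemma fin_nb (v : ℤ × Bool) : (G.neighborSet v).Finite := by
  apply Set.Finite.subset (Set.toFinite
    ({(v.1 + 1, true), (v.1 + 1, false), (v.1 - 1, true), (v.1 - 1, false)} : Set (ℤ × Bool)))
  rintro ⟨a, b⟩ h
  have h : a = v.1 + 1 ∨ v.1 = a + 1 := h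
  cases b <;> simp <;> omega

lemma conn : G.Connected := by
  have h0 : ∀ (n : ℤ) (b : Bool), G.Reachable (0, true) (n, b) := by
    intro n
    induction n using Int.induction_on with
    | zero =>
      intro b
      exact (SimpleGraph.Adj.reachable (v := (1, true)) (Or.inl rfl)).trans
        (SimpleGraph.Adj.reachable (Or.inr rfl))
    | succ n ih => exact fun b => (ih true).trans (SimpleGraph.Adj.reachable (Or.inl rfl))
    | pred n ih =>
      exact fun b => (ih true).trans (SimpleGraph.Adj.reachable (Or.inr (by simp)))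
  exact ⟨fun u v => (h0 u.1 u.2).symm.trans (h0 v.1 v.2)⟩

/-- An infinite, connected, locally finite, vertex-transitive graph on which no harmonic
function with integer values is injective. -/
theorem result : ∃ (V : Type) (G : SimpleGraph V), Infinite V ∧ G.Connected ∧
    (∀ v, (G.neighborSet v).Finite) ∧ (∀ u v, ∃ φ : G ≃g G, φ u = v) ∧
    ∀ f : V → ℤ,
      (∀ v, ((G.neighborSet v).ncard : ℤ) * f v = ∑ᶠ u ∈ G.neighborSet v, f u) →
      ¬ Function.Injective f := by
  refine ⟨ℤ × Bool, G, inferInstance, conn, fin_nb, fun u v => ?_, fun f hf hinj => ?_⟩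
  · refine ⟨⟨(Equiv.addRight (v.1 - u.1)).prodCongr (Equiv.swap u.2 v.2), ?_⟩, ?_⟩
    · intro a b
      simp only [G, Equiv.prodCongr_apply, Prod.map_fst, Equiv.coe_addRight]
      omega
    · ext <;> simp
  · have h1 := hf (0, true)
    have h2 := hf (0, false)
    have e : G.neighborSet (0, false) = G.neighborSet (0, true) := rfl
    rw [e, ← h1] at h2
    have hp : 0 < (G.neighborSet (0, true)).ncard :=
      (Set.ncard_pos (fin_nb _)).mpr ⟨(1, true), Or.inl rfl⟩
    have := hinj (mul_left_cancel₀ (by exact_mod_cast hp.ne') h2)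
    simp at this

end Pool.Agent.Results.MP_798444_co.Twins
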